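import Pool.Agent.NH80.DR.Dick

/-!
# Noncommutative centrally finite subdivision rings from small or flexible extensions inside `D`

`D` is a division ring, algebraic over its centre `F`. If `D` contains commuting elements `a`, `b`,
`b` outside `L = F(a)`, such that `b` has degree at most four over `L`, or is inseparable over `L`,
or has another conjugate over `L` in `L(b)`, then `D` contains a noncommutative centrally finite
subdivision ring. For `a = 0` the field `L` is the centre.
-/

set_option autoImplicit false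
set_option linter.unusedVariables false

namespace Pool.Agent.Results.MP_1d885e_al.SmallExtensions

open Pool.Agent.NH80.DR Polynomial

/-- the subfield generated by the centre and `a` -/
def Fa {D : Type} [DivisionRing D] (a : D) : Subfield D :=
  Subfield.closure ((Subring.center D : Set D) ∪ {a})

section

variable {D : Type} [DivisionRing D]

/-- degree at most four -/
theorem low (hD : AC D) {b : D} (hb : b ∉ Subring.center D) (p : (Subring.center D)[X])
    (hp : p ≠ 0) (hd : p.natDegree ≤ 4) (h : aeval b p = 0) : PF D := by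
  obtain ⟨g, hg⟩ := notc hb
  set q := p * C (p.leadingCoeff)⁻¹ with hq
  have hqm : q.Monic := monic_mul_leadingCoeff_inv hp
  have hqd : q.natDegree ≤ 4 := by
    rw [hq, natDegree_mul_leadingCoeff_inv p hp]
    exact hd
  have hqb : aeval b q = 0 := by
    rw [hq, map_mul, h, zero_mul]
  have hcen : ∀ i, (q.coeff i : D) ∈ Subring.center D := fun i => (q.coeff i).2
  have hlead : q.coeff q.natDegree = 1 := hqm.coeff_natDegree
  have hsum := hqb
  rw [aeval_eq_sum_range] at hsum
  have hsm : ∀ i, q.coeff i • b ^ i = (q.coeff i : D) * b ^ i := fun i => rfl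
  simp only [hsm] at hsum
  have h1D : ((1 : Subring.center D) : D) = 1 := rfl
  rcases Nat.lt_or_ge 4 q.natDegree with h5 | h5
  · omega
  have hcases : q.natDegree = 0 ∨ q.natDegree = 1 ∨ q.natDegree = 2 ∨ q.natDegree = 3 ∨
      q.natDegree = 4 := by omega
  rcases hcases with e | e | e | e | e
  · exfalso
    rw [e] at hlead hsum
    simp only [zero_add, Finset.sum_range_one, pow_zero, mul_one, hlead, h1D] at hsum
    exact one_ne_zero hsum
  · exfalso
    rw [e] at hlead hsum
    simp only [Finset.sum_range_succ, Finset.sum_range_zero, zero_add, pow_zero, mul_one, hlead,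
      h1D, pow_one, one_mul] at hsum
    apply hb
    have h2 : b = -(q.coeff 0 : D) := by
      rw [eq_neg_iff_add_eq_zero, add_comm]
      exact hsum
    rw [h2]
    exact Subring.neg_mem _ (hcen 0)
  · rw [e] at hlead hsum
    simp only [Finset.sum_range_succ, Finset.sum_range_zero, zero_add, pow_zero, mul_one, hlead,
      h1D, pow_one, one_mul] at hsum
    refine L2 hD (b := b) (y := g) (α := -(q.coeff 1 : D)) (β := -(q.coeff 0 : D))
      (Subring.neg_mem _ (hcen 1)) (Subring.neg_mem _ (hcen 0)) hg ?_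
    have h2 : b * b = ((q.coeff 0 : D) + (q.coeff 1 : D) * b + b ^ 2) +
        (-(q.coeff 1 : D) * b + -(q.coeff 0 : D)) := by
      noncomm_ring
    rw [h2, hsum, zero_add]
  · rw [e] at hlead hsum
    simp only [Finset.sum_range_succ, Finset.sum_range_zero, zero_add, pow_zero, mul_one, hlead,
      h1D, pow_one, one_mul] at hsum
    refine L4 hD (a := b) (u := g) (hcen 2) (hcen 1) (hcen 0) ?_ hg.symm
    rw [← hsum]
    noncomm_ring
  · rw [e] at hlead hsum
    simp only [Finset.sum_range_succ, Finset.sum_range_zero, zero_add, pow_zero, mul_one, hlead,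
      h1D, pow_one, one_mul] at hsum
    refine L5 hD (a := b) (u := g) (hcen 3) (hcen 2) (hcen 1) (hcen 0) ?_ hg.symm
    rw [← hsum]
    noncomm_ring

theorem Fa_comm {a g z : D} (hg : g ∈ cz a) (hz : z ∈ Fa a) : g * z = z * g := by
  have h1 : Fa a ≤ cz g := by
    refine Subfield.closure_le.2 ?_
    rintro x (hx | hx)
    · exact cz_center g x hx
    · rw [Set.mem_singleton_iff.1 hx]
      exact (show a * g = g * a from hg).symm
  exact h1 hz

theorem Fa_cz {a z : D} (hz : z ∈ Fa a) : z ∈ cz a := Fa_comm (show a ∈ cz a from rfl) hz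

/-- the map from `F(a)` to the centre of the centralizer of `a` -/
def phi (a : D) : Fa a →+* Subring.center (cz a) where
  toFun z := ⟨⟨z, Fa_cz z.2⟩, Subring.mem_center_iff.2 fun g => Subtype.ext (Fa_comm g.2 z.2)⟩
  map_one' := rfl
  map_mul' _ _ := rfl
  map_zero' := rfl
  map_add' _ _ := rfl

theorem phi_inj (a : D) : Function.Injective (phi a) := by
  intro x y h
  have h1 : ((phi a x : cz a) : D) = ((phi a y : cz a) : D) := by rw [h]
  exact Subtype.ext h1

theorem mem_Fa (hD : AC D) {a : D} {z : cz a} (hz : z ∈ Subring.center (cz a)) :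
    (z : D) ∈ Fa a := by
  have h1 := double hD a (z : D) (fun g hg => by
    have := Subring.mem_center_iff.1 hz ⟨g, hg⟩
    exact (congrArg Subtype.val this).symm)
  refine Algebra.adjoin_induction (p := fun x _ => x ∈ Fa a) ?_ ?_ ?_ ?_ h1
  · intro x hx
    exact Subfield.subset_closure (Or.inr hx)
  · intro c
    exact Subfield.subset_closure (Or.inl c.2)
  · intro x y _ _ hx hy
    exact (Fa a).add_mem hx hy
  · intro x y _ _ hx hy
    exact (Fa a).mul_mem hx hy

theorem phi_surj (hD : AC D) (a : D) : Function.Surjective (phi a) := by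
  intro z
  exact ⟨⟨((z : cz a) : D), mem_Fa hD z.2⟩, Subtype.ext (Subtype.ext rfl)⟩

theorem tr (a : D) (p : (Fa a)[X]) (x : cz a) :
    ((aeval x (p.map (phi a)) : cz a) : D) = p.eval₂ (Fa a).subtype (x : D) := by
  rw [aeval_def, eval₂_map]
  exact hom_eval₂ p ((algebraMap (Subring.center (cz a)) (cz a)).comp (phi a)) (cz a).subtype x

end

/-- **Theorem.** -/
theorem result (D : Type) [DivisionRing D]
    (halg : ∀ x : D, ∃ p : Polynomial (Subring.center D),
      p ≠ 0 ∧ Polynomial.eval₂ (Subring.center D).subtype x p = 0)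
    (a b : D) (hab : a * b = b * a) (hb : b ∉ Fa a)
    (h : (∃ p : Polynomial (Fa a), p ≠ 0 ∧ p.natDegree ≤ 4 ∧ p.eval₂ (Fa a).subtype b = 0) ∨
      (∀ p : Polynomial (Fa a), p.eval₂ (Fa a).subtype b = 0 →
        p.derivative.eval₂ (Fa a).subtype b = 0) ∨
      (∃ c ∈ Subfield.closure ((Fa a : Set D) ∪ {b}), c ≠ b ∧
        ∀ p : Polynomial (Fa a), p.eval₂ (Fa a).subtype b = 0 →
          p.eval₂ (Fa a).subtype c = 0)) :
    ∃ K : Subfield D,
      (∃ x ∈ K, ∃ y ∈ K, x * y ≠ y * x) ∧
      ∃ s : Finset D, (∀ t ∈ s, t ∈ K) ∧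
        ∀ x ∈ K, ∃ c : D → D,
          (∀ t ∈ s, c t ∈ K ∧ ∀ y ∈ K, c t * y = y * c t) ∧
          x = ∑ t ∈ s, c t * t := by
  have hD : AC D := by
    intro x
    obtain ⟨p, hp, hpx⟩ := halg x
    exact isAlgebraic_iff_isIntegral.1 ⟨p, hp, hpx⟩
  have hE : AC (cz a) := ac_of_sub (cz a) (cz_center a) hD
  have hbE : b ∈ cz a := hab
  have hbc : (⟨b, hbE⟩ : cz a) ∉ Subring.center (cz a) := fun h' => hb (mem_Fa hD h')
  refine pf_of_sub (cz a) ?_
  obtain ⟨m0, hm0⟩ := Polynomial.map_surjective (phi a) (phi_surj hD a)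
    (minpoly (Subring.center (cz a)) (⟨b, hbE⟩ : cz a))
  have hmb : m0.eval₂ (Fa a).subtype b = 0 := by
    have h1 := tr a m0 ⟨b, hbE⟩
    rw [hm0, minpoly.aeval] at h1
    exact h1.symm
  rcases h with ⟨p, hp, hd, hpb⟩ | h | ⟨c, hc, hcb, hroot⟩
  · refine low hE hbc (p.map (phi a)) ?_ ((natDegree_map_le).trans hd) ?_
    · exact (Polynomial.map_ne_zero_iff (phi_inj a)).2 hp
    · refine Subtype.ext ?_
      rw [tr]
      exact hpb
  · refine Linsep hE (⟨b, hbE⟩ : cz a) ?_
    have h1 := h m0 hmb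
    have h2 := tr a (derivative m0) ⟨b, hbE⟩
    rw [← derivative_map, hm0] at h2
    have h3 : aeval (⟨b, hbE⟩ : cz a)
        (derivative (minpoly (Subring.center (cz a)) (⟨b, hbE⟩ : cz a))) = 0 :=
      Subtype.ext (h2.trans h1)
    by_contra h4
    have h5 := minpoly.degree_le_of_ne_zero (Subring.center (cz a)) (⟨b, hbE⟩ : cz a) h4 h3
    exact absurd (degree_derivative_lt (minpoly.ne_zero (hE ⟨b, hbE⟩))) (not_lt.2 h5)
  · have hmem : ∀ x ∈ Subfield.closure ((Fa a : Set D) ∪ {b}), ∃ hx : x ∈ cz a,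
        (⟨x, hx⟩ : cz a) ∈ Algebra.adjoin (Subring.center (cz a)) {(⟨b, hbE⟩ : cz a)} := by
      intro x hx
      refine Subfield.closure_induction (p := fun x _ => ∃ hx : x ∈ cz a,
        (⟨x, hx⟩ : cz a) ∈ Algebra.adjoin (Subring.center (cz a)) {(⟨b, hbE⟩ : cz a)})
        ?_ ?_ ?_ ?_ ?_ ?_ hx
      · rintro y (hy | hy)
        · exact ⟨Fa_cz hy, Subalgebra.algebraMap_mem _ (phi a ⟨y, hy⟩)⟩
        · rw [Set.mem_singleton_iff.1 hy]
          exact ⟨hbE, smem _⟩
      · exact ⟨(cz a).one_mem, Subalgebra.one_mem _⟩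
      · rintro y z _ _ ⟨hy, hy'⟩ ⟨hz, hz'⟩
        exact ⟨(cz a).add_mem hy hz, Subalgebra.add_mem _ hy' hz'⟩
      · rintro y _ ⟨hy, hy'⟩
        exact ⟨(cz a).neg_mem hy, Subalgebra.neg_mem _ hy'⟩
      · rintro y _ ⟨hy, hy'⟩
        exact ⟨(cz a).inv_mem hy, inv_mem _ (hE ⟨b, hbE⟩).fg_adjoin_singleton hy'⟩
      · rintro y z _ _ ⟨hy, hy'⟩ ⟨hz, hz'⟩
        exact ⟨(cz a).mul_mem hy hz, Subalgebra.mul_mem _ hy' hz'⟩
    obtain ⟨hcE, hcA⟩ := hmem c hc
    refine Laut hE (⟨b, hbE⟩ : cz a) ⟨c, hcE⟩ ?_ hcA (fun h' => hcb (congrArg Subtype.val h'))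
    have h1 := tr a m0 ⟨c, hcE⟩
    rw [hm0] at h1
    exact Subtype.ext (h1.trans (hroot m0 hmb))

end Pool.Agent.Results.MP_1d885e_al.SmallExtensions
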